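import Mathlib
import Pool.Agent.Q37.Fix.Main

/-!
# A fixed ideal of a Gorenstein curve that is no trace ideal

Let `k` be a perfect field of characteristic `p > 2` and `R = k[x, y] / (y ^ 3 - x ^ 2 y)`, the
coordinate ring of three lines through a point of the plane. It is F-finite, finite and free over
`A = k[x]`, and its canonical module `Hom_A(R, A)` is free of rank one, so `R` is Gorenstein, and in
particular quasi-Gorenstein. The `F_*R`-module `Hom_R(F_*R, R)` is generated by one element `Φ`.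
The ideal `I = (x, y ^ 2)` satisfies `Φ(F_*I) = I`, but it is not the trace ideal of any finite
`R`-algebra `S`.

Idea of the proof. Let `v = y / x`, an element of the normalization of `R`. If `f(1)` is in `I` for
all `R`-linear `f : S → R`, then `v f(1)` is in `R` for all `f`, and by duality `v` is in the image
of `S` in `S ⊗ Frac R`. As `S` is a ring, `v ^ 2` is in the image as well, so `v ^ 2 f(1)` is in `R`
for all `f`. But `v ^ 2 x = y ^ 2 / x` is not in `R`, so that `x` is not in the trace ideal. On the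
other hand `I` is fixed because `v ^ p = v`.
-/

set_option autoImplicit false

namespace Pool.Agent.Results.MP_3a4337_ag.ThreeLines

open Polynomial

universe u v

/-- `φ` is an element of `Hom_R(F_*R, R)`: it is additive and `φ (r ^ p * a) = r * φ a`. -/
def IsPInvLinear (p : ℕ) {R : Type u} [CommRing R] (φ : R → R) : Prop :=
  (∀ a b, φ (a + b) = φ a + φ b) ∧ ∀ r a, φ (r ^ p * a) = r * φ a

/-- `Φ` generates `Hom_R(F_*R, R)` as an `F_*R`-module: every `φ` in `Hom_R(F_*R, R)` is of the form
`a ↦ Φ (c * a)`. -/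
def IsGenerator (p : ℕ) {R : Type u} [CommRing R] (Φ : R → R) : Prop :=
  IsPInvLinear p Φ ∧ ∀ φ : R → R, IsPInvLinear p φ → ∃ c : R, ∀ a, φ a = Φ (c * a)

/-- `R` is F-finite: finitely many elements generate `R` as a module over itself via the Frobenius
`r ↦ r ^ p`. -/
def IsFFinite (p : ℕ) (R : Type u) [CommRing R] : Prop :=
  ∃ s : Finset R, ∀ r : R, ∃ c : R → R, r = ∑ e ∈ s, c e ^ p * e

/-- The `R`-module `Hom_A(R, A)` is free of rank one (for `R` finite and free over a polynomial
ring `A` this is the canonical module of `R`). -/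
def IsDualFree (A : Type u) (R : Type u) [CommRing A] [CommRing R] [Algebra A R] : Prop :=
  ∃ t : R →ₗ[A] A, Function.Bijective fun r : R => t.comp (LinearMap.mulLeft A r)

/-- The trace ideal of the `R`-algebra `S`, the image of `Hom_R(S, R) → R`, `f ↦ f 1`. -/
def traceIdeal (R : Type u) [CommRing R] (S : Type v) [CommRing S] [Algebra R S] : Ideal R :=
  LinearMap.range (LinearMap.applyₗ (1 : S) : (S →ₗ[R] R) →ₗ[R] R)

/-- The ring `k[x][y] / (y ^ 3 - x ^ 2 y)`. -/
abbrev Curve (k : Type u) [Field k] : Type u :=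
  AdjoinRoot (X ^ 3 - C (X ^ 2) * X : k[X][X])

/-- The class of `x`. -/
noncomputable def x (k : Type u) [Field k] : Curve k :=
  AdjoinRoot.of (X ^ 3 - C (X ^ 2) * X : k[X][X]) X

/-- The class of `y`. -/
noncomputable def y (k : Type u) [Field k] : Curve k :=
  AdjoinRoot.root (X ^ 3 - C (X ^ 2) * X : k[X][X])

theorem exists_of_finite {A : Type u} {B : Type v} [CommRing A] [CommRing B] (f : A →+* B)
    (h : f.Finite) : ∃ s : Finset B, ∀ r : B, ∃ c : B → A, r = ∑ e ∈ s, f (c e) * e := by
  let _ := f.toAlgebra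
  have h1 : Module.Finite A B := h
  obtain ⟨s, hs⟩ := h1.fg_top
  refine ⟨s, fun r => ?_⟩
  have hr : r ∈ Submodule.span A (s : Set B) := by
    rw [hs]
    exact Submodule.mem_top
  rw [Submodule.mem_span_finset] at hr
  obtain ⟨c, -, hc⟩ := hr
  exact ⟨c, hc.symm⟩

theorem frob_finite (p : ℕ) (hp : p.Prime) (k : Type u) [Field k] [CharP k p] [PerfectField k]
    (R : Type u) [CommRing R] [Algebra k R] [Algebra.FiniteType k R] [CharP R p] :
    IsFFinite p R := by
  have : Fact p.Prime := ⟨hp⟩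
  have h1 : ((frobenius R p).comp (algebraMap k R)).FiniteType := by
    have e : (frobenius R p).comp (algebraMap k R) = (algebraMap k R).comp (frobenius k p) := by
      ext a
      simp [frobenius_def]
    rw [e]
    have h2 : (frobenius k p).FiniteType :=
      RingHom.FiniteType.of_surjective _ (PerfectRing.bijective_frobenius (R := k) (p := p)).2
    have h3 : (algebraMap k R).FiniteType := by
      rw [RingHom.finiteType_algebraMap]
      infer_instance
    exact h3.comp h2
  have h2 := RingHom.FiniteType.of_comp_finiteType h1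
  have h3 : (frobenius R p).IsIntegral := by
    intro r
    refine ⟨X ^ p - C r, monic_X_pow_sub_C _ hp.ne_zero, ?_⟩
    simp [frobenius_def]
  exact exists_of_finite (frobenius R p) (h3.to_finite h2)

/-- The main theorem for the model of the ring in the helper files. -/
theorem aux (p : ℕ) (hp : p.Prime) (hp2 : p ≠ 2) (k : Type u) [Field k] [CharP k p]
    [PerfectField k] :
    (IsNoetherianRing (Q37.Fix.Lines k) ∧ CharP (Q37.Fix.Lines k) p ∧
      IsFFinite p (Q37.Fix.Lines k)) ∧
    (Module.Finite k[X] (Q37.Fix.Lines k) ∧ Module.Free k[X] (Q37.Fix.Lines k) ∧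
      IsDualFree k[X] (Q37.Fix.Lines k)) ∧
    (∃ Φ : Q37.Fix.Lines k → Q37.Fix.Lines k, IsGenerator p Φ) ∧
    (∀ Φ : Q37.Fix.Lines k → Q37.Fix.Lines k, IsGenerator p Φ →
      Φ '' (Q37.Fix.II k : Ideal (Q37.Fix.Lines k)) = (Q37.Fix.II k : Ideal (Q37.Fix.Lines k))) ∧
    ∀ (S : Type v) [CommRing S] [Algebra (Q37.Fix.Lines k) S]
      [Module.Finite (Q37.Fix.Lines k) S], traceIdeal (Q37.Fix.Lines k) S ≠ Q37.Fix.II k := by
  have : Fact p.Prime := ⟨hp⟩
  have hodd : Odd p := hp.odd_of_ne_two hp2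
  have hfin : Module.Finite k[X] (Q37.Fix.Lines k) := (Q37.Fix.cub_monic k).finite_adjoinRoot
  have hfree : Module.Free k[X] (Q37.Fix.Lines k) := (Q37.Fix.cub_monic k).free_adjoinRoot
  have hchar : CharP (Q37.Fix.Lines k) p := by
    have h := Q37.Fix.instExpCharLines (k := k) p
    rcases h with h | h
    · exact absurd rfl hp.ne_one
    · assumption
  refine ⟨⟨inferInstance, hchar, ?_⟩, ⟨hfin, hfree, ?_⟩, ?_, ?_, ?_⟩
  · exact frob_finite p hp k (Q37.Fix.Lines k)
  · refine ⟨Q37.Fix.co k 2, ?_, ?_⟩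
    · intro a b hab
      apply Q37.Fix.ext_co
      intro r
      have h := LinearMap.congr_fun hab r
      change Q37.Fix.co k 2 (a * r) = Q37.Fix.co k 2 (b * r) at h
      rw [mul_comm r a, mul_comm r b]
      exact h
    · intro g
      obtain ⟨c, hc⟩ := Q37.Fix.exists_co g
      exact ⟨c, LinearMap.ext fun s => (hc s).symm⟩
  · refine ⟨Q37.Fix.Phi p, ⟨Q37.Fix.Phi_add p hodd.pos, Q37.Fix.Phi_smul p hodd⟩, ?_⟩
    intro φ hφ
    exact Q37.Fix.Phi_gen p hodd φ ⟨hφ.1, hφ.2⟩
  · intro Φ hΦ
    have h := Q37.Fix.fixed p hodd hp.ne_one Φ ⟨hΦ.1.1, hΦ.1.2⟩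
      (fun φ hφ => hΦ.2 φ ⟨hφ.add, hφ.smul⟩)
    ext b
    rw [Set.mem_image]
    exact (h b).symm
  · intro S _ _ _ hS
    refine Q37.Fix.not_trace (k := k) S fun r => ?_
    have h : r ∈ traceIdeal (Q37.Fix.Lines k) S ↔
        ∃ f : S →ₗ[Q37.Fix.Lines k] Q37.Fix.Lines k, f 1 = r := by
      unfold traceIdeal
      rw [LinearMap.mem_range]
      rfl
    rw [hS] at h
    exact h

/-- The ideal `(x, y ^ 2)` of the F-finite Gorenstein ring `k[x, y] / (y ^ 3 - x ^ 2 y)` is fixed,
but it is not the trace ideal of any finite algebra. -/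
theorem result (p : ℕ) (hp : p.Prime) (hp2 : p ≠ 2) (k : Type u) [Field k] [CharP k p]
    [PerfectField k] :
    (IsNoetherianRing (Curve k) ∧ CharP (Curve k) p ∧ IsFFinite p (Curve k)) ∧
    (Module.Finite k[X] (Curve k) ∧ Module.Free k[X] (Curve k) ∧ IsDualFree k[X] (Curve k)) ∧
    (∃ Φ : Curve k → Curve k, IsGenerator p Φ) ∧
    (∀ Φ : Curve k → Curve k, IsGenerator p Φ →
      Φ '' (Ideal.span {x k, y k ^ 2} : Ideal (Curve k)) =
        (Ideal.span {x k, y k ^ 2} : Ideal (Curve k))) ∧
    ∀ (S : Type v) [CommRing S] [Algebra (Curve k) S] [Module.Finite (Curve k) S],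
      traceIdeal (Curve k) S ≠ Ideal.span {x k, y k ^ 2} :=
  aux p hp hp2 k

end Pool.Agent.Results.MP_3a4337_ag.ThreeLines
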